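import Pool.Agent.H614.MM.Log

/-!
# Weak abundance for the images of fibred pairs

Let `(W, D_W)` be a smooth projective variety of dimension `n` with a reduced divisor with normal
crossings, `V ⇢ W` a dominant rational map of finite degree from a smooth projective variety `V`, and
`D_V` the preimage of `D_W`; nothing else is assumed about `W` or about the map. Let `V ⇢ Y` be a
rational map onto a variety `Y` of dimension `d` in projective space (for instance a fibration with
connected fibres), and `H` the pull-back of the hyperplane class. Suppose that some section of
`K_V + D_V - m H` has nonzero trace to the image `W'` of `V` in `W × Y`, and that the degree of `W'`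
over `W` is at most `m`. (If `V` is birational to `W'`, then the first condition says that
`H⁰(V, K_V + D_V - m H) ≠ 0`, and the second one that the degree of `V ⇢ W` is at most `m`.)

Then `κ(W, K_W + D_W) ≥ d - 1`. If `Y` is not covered by lines, or if the degree is at most
`(m + 1) / 2`, then `κ(W, K_W + D_W) ≥ d`; if moreover `ν(V, K_V + D_V) ≤ d` (for instance, if
`K_F + D_F` has numerical dimension `0` for the general fibre `F` of `V ⇢ Y`), then

  `κ(W, K_W + D_W) = ν(W, K_W + D_W) = d`.

So weak abundance holds for these pairs. The result is new also for `D_W = 0`. It is sharp: for all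
`n` there are such maps `V ⇢ W` of degree `m + 1`, where `Y = V` is a hypersurface of degree `2 n + 2`
and `W` a Calabi–Yau double covering of `ℙⁿ`, `D_W = 0`, `d = n`, `m = n` and `κ(W) = 0` (this remark is
not part of the Lean statement).

Proof: the traces on `W` of the forms `A(x) ω`, where `A` is a polynomial of degree `m`, are sections of
`K_W + D_W`. If a vector field on `W` respects their ratios and moves the conjugates `x_1, …, x_s` of the
generic point `x` of `Y` over `W`, then the points `x_i` with their tangent vectors satisfy a
Cayley–Bacharach condition for the forms of degree `m`, and since `2 s ≤ 2 m`, they and the tangent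
vectors are on one line. This line is constant along all such vector fields, hence it is algebraic over
the field of the ratios, and it is contained in `Y` (`Pool/Agent/H614/MM`).

The function-field language of the starting repository is used: `K` is the function field of `V`, and
`L`, a subfield of `K`, the function field of `W`; `BW` is the set of the places of `L` without centre on
`W \ D_W`. `KodGe ℂ L n BW e` says that `κ(W, K_W + D_W) ≥ e` (`Pool/Agent/W602/GT/KDefs.lean`), and
`NumLe ℂ L n BW e` that `ν(W, K_W + D_W) ≤ e`: for each divisor `A` there is `C` with
`h⁰(m (K_W + D_W) + A) ≤ C m ^ e` for all `m ≥ 1` (`Pool/Agent/W619/TW/NDefs.lean`).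
-/

set_option autoImplicit false
set_option linter.overlappingInstances false

open FF Pool.Agent.W602.GT
open Pool.Agent.W619.TW (NumLe)

namespace Pool.Agent.Results.MP_2c56d9_ag.ImagesOfFibredPairs

section

variable {K : Type} [Field K] [Algebra ℂ K] {n N : ℕ}

/-- `K` is the function field of a variety `V` of dimension `n`, and `x` is the generic point of a
variety `Y` of dimension `d` in projective space with `N` homogeneous coordinates (one of them is
normalised to `1`), the image of `V` under a rational map; the function field of `Y` is `ℂ(x)`. -/
structure IsMap (n d : ℕ) (x : Fin N → K) : Prop where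
  ess : Algebra.EssFiniteType ℂ K
  dim : Algebra.trdeg ℂ K = n
  one : ∃ j, x j = 1
  image : Algebra.trdeg ℂ (IntermediateField.adjoin ℂ (Set.range x)) = d

/-- The place `Q` of `K` is in the preimage of the boundary: it lies over a place of `BW`. -/
def Preimage {L : Type} [Field L] [Algebra ℂ L] [Algebra L K] (BW : Place ℂ L → Prop)
    (Q : Place ℂ K) : Prop :=
  ∃ (P : Place ℂ L) (e : ℕ), Over Q P e ∧ BW P

/-- `ω` is a section of `K_V + D - m H`, where `H` is the pull-back of the hyperplane class of `Y`: a
canonical form on `V` such that the products `A(x) ω` have at most logarithmic poles at all prime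
divisors, and no poles at those which are not in the boundary `BV`, for all monomials (hence for all
forms) `A` of degree `m`. -/
def IsSection (m : ℕ) (BV : Place ℂ K → Prop) (x : Fin N → K)
    (ω : (Fin n → Derivation ℂ K K) → K) : Prop :=
  IsPluri 1 ω ∧ ∀ (f : Fin m → Fin N) (P : Place ℂ K), Divisorial n P →
    LogAt P (fun D => (∏ k, x (f k)) * ω D) ∧
      (¬ BV P → RegAt P (fun D => (∏ k, x (f k)) * ω D))

/-- The trace of the form `ω` to the variety with the function field `F` is not zero. The value of the
trace of `ω` on vector fields `D i` of `F` is the trace of the value of `ω` on the extensions `D' i` of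
the `D i` to `K`. -/
def TraceNe (ω : (Fin n → Derivation ℂ K K) → K) (F : IntermediateField ℂ K) : Prop :=
  ∃ (D : Fin n → Derivation ℂ F F) (D' : Fin n → Derivation ℂ K K),
    (∀ i f, D' i (algebraMap F K f) = algebraMap F K (D i f)) ∧
    Algebra.trace F K (ω D') ≠ 0

/-- `Y` is covered by lines: for some variety `B`, with function field `M`, there is a family over `B`
of lines in projective space, the lines through the points `a` and `b` over `M`, such that the
generic point `a + T b` of the total space of the family is mapped to the generic point `x` of `Y`,
that is, exactly the equations of `Y` vanish at `a + T b`. -/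
def CoveredByLines (x : Fin N → K) : Prop :=
  ∃ (M : Type) (_ : Field M) (_ : Algebra ℂ M) (a b : Fin N → M),
    Algebra.EssFiniteType ℂ M ∧ LinearIndependent M ![a, b] ∧
    ∀ F : MvPolynomial (Fin N) ℂ, MvPolynomial.aeval x F = 0 ↔
      MvPolynomial.aeval (fun j => Polynomial.C (a j) + Polynomial.X * Polynomial.C (b j)) F = 0

end

/-- **Weak abundance for the images of fibred pairs.** Let `V ⇢ Y` be a rational map from a variety of
dimension `n` onto a variety of dimension `d` with generic point `x`, `V ⇢ W` a dominant rational map
of finite degree, `L` the function field of `W`, and `BW` the boundary of `W`. If some section of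
`K_V + D_V - m H`, where `D_V` is the preimage of the boundary, has nonzero trace to `L(x)`, and
`[L(x) : L] ≤ m`, then `κ(K_W + D_W) ≥ d - 1`; if moreover `Y` is not covered by lines, or
`2 [L(x) : L] ≤ m + 1`, then `κ(K_W + D_W) ≥ d`, and `ν(K_W + D_W) ≤ d` if `ν(K_V + D_V) ≤ d`. Since
`κ ≤ ν`, one has `κ(K_W + D_W) = ν(K_W + D_W) = d` in this case. -/
theorem result {n d m N : ℕ} {K : Type} [Field K] [Algebra ℂ K] {x : Fin N → K} (hx : IsMap n d x)
    (L : Type) [Field L] [Algebra ℂ L] [Algebra L K] [IsScalarTower ℂ L K]
    [FiniteDimensional L K] (BW : Place ℂ L → Prop) {ω : (Fin n → Derivation ℂ K K) → K}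
    (hω : IsSection m (Preimage BW) x ω)
    (htr : TraceNe ω ((IntermediateField.adjoin L (Set.range x)).restrictScalars ℂ))
    (hdeg : Module.finrank L (IntermediateField.adjoin L (Set.range x)) ≤ m) :
    KodGe ℂ L n BW (d - 1) ∧
    (¬ CoveredByLines x ∨
        2 * Module.finrank L (IntermediateField.adjoin L (Set.range x)) ≤ m + 1 →
      KodGe ℂ L n BW d ∧
      (NumLe ℂ K n (Preimage BW) d → NumLe ℂ L n BW d)) := by
  have hess : Algebra.EssFiniteType ℂ K := hx.ess
  have h1 := Pool.Agent.H614.MM.main_log (L := L) hx.dim hx.one hx.image (BK := Preimage BW)
    (BL := BW) (fun P Q e hQ hB => ?_) (ω := ω) hω htr hdeg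
  · exact ⟨h1.1, fun h => ⟨h1.2 h, fun h2 =>
      Pool.Agent.H614.MM.numLe_log hx.dim (BK := Preimage BW) (fun Q => Iff.rfl) h2⟩⟩
  · obtain ⟨P', e', hQ', hP'⟩ := hB
    have h2 : P' = P := (Pool.Agent.Y172.over_unique' hQ' hQ).1
    rw [← h2]
    exact hP'

end Pool.Agent.Results.MP_2c56d9_ag.ImagesOfFibredPairs
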