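import Pool.Agent.Helper320.PCH.FinP

/-!
# Weak abundance for the pairs which are images of products of open curves

Let `U i = C i \ B i`, `1 ≤ i ≤ n`, be any smooth curves over `ℂ`: `C i` is smooth and projective, and
`B i` is a finite set of points, which may be empty. Let `γ i` be at most the gonality of `U i`, the
smallest degree of a nonconstant function on `C i` which vanishes at all points of `B i`, that is of a
finite map onto the affine line of an open subset of `U i` (of a map of `C i` onto the line if `B i` is
empty). It is at least the number of the points of `B i`.

Let `(W, D)` be a smooth projective variety with a reduced divisor with normal crossings, and let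
`U = U 1 × ... × U n → X = W \ D` be a proper surjective morphism which is finite over a general point;
it need not be a quotient by a group, and nothing is assumed on its ramification. (More generally, a
dominant rational map is sufficient such that a place of `ℂ(U)` with values in `ℤ` has a centre on `U`
if and only if its restriction to `ℂ(W)` has a centre on `X`.) For a set `S` of factors let `d(S)` be
the degree over `X` of the image of `U` in `X × ∏ (i ∈ S) U i`; so `d(∅) = 1`, and `d(all)` is the degree
of `U → X`. Let `g(J) = ∑ (i ∈ J) (γ i - 2)⁺`.

Simplest case: suppose that `2 d(all) ≤ d(J') (1 + g(J))` for every set `J` of at least two factors,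
with complement `J'`. Then `κ(K_W + D) = ν(K_W + D)`: by the theorem `X` is `A¹`-uniruled and `K_W + D`
is not pseudo-effective, so `κ = ν = -∞`, or `κ ≥ n - 1` (see below), and `ν = n` if and only if
`κ = n`.

In general, let `Λ` be a set of factors such that `2 d(all) ≤ d(J') (1 + g(J))` for all sets `J` which
meet `Λ`, and `d(all) ≤ d(J') (1 + g(J))` for all sets `J` of at least two factors. Then `X` is
`A¹`-uniruled and `K_W + D` is not pseudo-effective, or `κ(K_W + D) ≥ |Λ|`. If `2 d(all) ≤
d(J') (1 + g(J))` for all `J` with at least two elements, then one can take for `Λ` all factors, or all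
but one: if this fails for `J = {i}` and for `J = {j}`, `i ≠ j`, then it fails for `J = {i, j}`. If
`|Λ| ≥ n - 1` then `κ(K_W + D) = ν(K_W + D)`; this holds also if `|Λ| ≥ n - 3`, by abundance for log
canonical threefolds (Keel, Matsuki, McKernan) on the fibres of the Iitaka fibration (Nakayama,
Lehmann). (These remarks are not part of the Lean statement.)

In the theorem the factors can moreover be divided into successive blocks: `b i` is the number of the
block of the factor `i`, and the conditions are on the degrees over `X` of the images of `U` in the
products of `X` and the factors in the first blocks. For example, let each block have one factor. If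
the degree of the image of `U` in `X × U 1 × ... × U k` over its image in `X × U 1 × ... × U (k - 1)` is
less than half the gonality of `U k` for all `k ≤ m`, and less than the gonality of `U k` for
`m < k < n`, then `X` is `A¹`-uniruled or `κ(K_W + D) ≥ m`; the last curve is arbitrary for `m < n`.

Proof. The traces of the products `c 1 ... c n` of logarithmic differentials `c i` of the `(C i, B i)`
are sections of `K_W + D`. If their ratios do not generate a field of transcendence degree at least
`|Λ|` then there is a vector field on `W` which kills these ratios, but not all functions on `C l`, for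
some `l ∈ Λ`. This gives a linear relation between the values and the derivatives of the products of
logarithmic differentials at the conjugates of the generic point of `U`. By the theorem of Riemann-Roch
the logarithmic differentials of `(C i, B i)` separate a point from `γ i - 2` others, counted with
multiplicities, over all extensions of the field of constants. The marriage theorem of Hall, applied to
the conjugates and the coordinates in which they differ from the generic point, distributes the zeros
such that all terms of the relation vanish but one, if the conditions hold for all sets `J`. So one of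
them fails, for `J = {j}` with `j` in the last block. Then the conditions for the sets `J ∪ {j}` imply
those for the image `X'` of `U` in `X × ∏ (i ≠ j) U i`, and Hall's theorem shows that the traces to `X'`
vanish, and `X'` and `X` are `A¹`-uniruled as in `MP_410da7_ag.OpenCurveProductImages`.

The function-field language of the starting repository is used: `L = ℂ(W)`, and `Bd` is the set of the
places of `L` without centre on `W \ D`; a form (`IsPluri N`) on a variety of dimension `n` is a function
of `n` rational vector fields. `KodGe ℂ L n Bd h` says that `κ(K_W + D) ≥ h`: there are sections of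
`N (K_W + D)` (`LogSec`: forms with at most logarithmic poles at all prime divisors, and regular at
those which are not in `Bd`) whose ratios contain `h` algebraically independent functions.
`Psef ℂ L n Bd` says that `K_W + D` is pseudo-effective (`Pool/Agent/W602/GT`), and
`IsA1Uniruled ℂ L n Bd` that `W \ D` is `A¹`-uniruled (`Pool/Agent/W619/PL/LDefs.lean`).
`Over Q P e` says that the place `Q` lies over the place `P`, with ramification index `e ≥ 1`.
Subtraction of natural numbers is truncated: `γ i - 2` is `0` if `γ i ≤ 2`.
-/

set_option autoImplicit false
set_option linter.overlappingInstances false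

open FF Pool.Agent.W602.GT
open Pool.Agent.W619.PL (IsA1Uniruled)

namespace Pool.Agent.Results.MP_2c56d9_ag.ImagesOfOpenCurveProducts

/-- `F` is the function field of a curve. -/
def IsCurveField (F : Type) [Field F] [Algebra ℂ F] : Prop :=
  Algebra.EssFiniteType ℂ F ∧ Algebra.trdeg ℂ F = 1

/-- The gonality of the open curve with the function field `F` and the boundary `B` is at least `γ`:
all nonconstant functions which vanish at the points of `B` have degree at least `γ`. -/
def GonalityGe (F : Type) [Field F] [Algebra ℂ F] (B : Finset (Place ℂ F)) (γ : ℕ) : Prop :=
  ∀ t : F, Transcendental ℂ t → (∀ P ∈ B, 0 < P.ord t) →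
    γ ≤ Module.finrank (IntermediateField.adjoin ℂ {t}) F

/-- The boundary of the product of the open curves: the places which lie over a boundary point of one
of the factors, that is the places without centre on `U`. -/
def Boundary {K : Type} [Field K] [Algebra ℂ K] {n : ℕ} (F : Fin n → IntermediateField ℂ K)
    (B : ∀ i, Finset (Place ℂ (F i))) (Q : Place ℂ K) : Prop :=
  ∃ i, ∃ p ∈ B i, ∃ e : ℕ, Over Q p e

/-- The degree `d(S)` over `X` of the image of `U` in the product of `X` and the curves with the
function fields `F i`, `i ∈ S`: the degree over `L` of the compositum of `L` and these fields. -/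
noncomputable def imageDegree {K : Type} [Field K] [Algebra ℂ K] (L : Type) [Field L]
    [Algebra L K] {n : ℕ} (F : Fin n → IntermediateField ℂ K) (S : Finset (Fin n)) : ℕ :=
  Module.finrank L (IntermediateField.adjoin L (⋃ i ∈ S, (F i : Set K)))

/-- **Images of products of open curves.** Let `U` be the product of `n ≥ 1` open curves with the
function fields `F i`, which are subfields of the function field `K` of `U`, and the boundaries `B i`,
of gonality at least `γ i`, and let `L` be a subfield of `K` of finite index, the function field of a
smooth variety `X = W \ D` with boundary `Bd`, such that a place of `K` is in the boundary of `U` if and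
only if the place of `L` below it is in `Bd`. Let the factors be divided into blocks by `b`, and let `Λ`
be a set of factors, such that for all `k` and all nonempty sets `J` of factors in the block `k`, the
degrees `d = d({i | b i ≤ k})` and `d' = d({i | b i ≤ k} \ J)` satisfy:
`d ≤ d' (1 + ∑ (i ∈ J) (γ i - 2))`, unless `J` has one element and `k` is the last block;
`2 d ≤ d' (1 + ∑ (i ∈ J) (γ i - 2))` if `J` meets `Λ`; and `2 d ≤ d' (2 + ∑ (i ∈ J) (γ i - 2))` if a
factor in a later block is in `Λ`. Then `X` is `A¹`-uniruled and `K_W + D` is not pseudo-effective, or
`κ(K_W + D) ≥ |Λ|`. -/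
theorem result {n : ℕ} (hn : 1 ≤ n) {K : Type} [Field K] [Algebra ℂ K]
    (hK : Algebra.trdeg ℂ K = n) (F : Fin n → IntermediateField ℂ K)
    (hF : ∀ i, IsCurveField (F i)) (hsup : ⨆ i, F i = ⊤) (B : ∀ i, Finset (Place ℂ (F i)))
    (γ : Fin n → ℕ) (hγ : ∀ i, GonalityGe (F i) (B i) (γ i))
    (L : Type) [Field L] [Algebra ℂ L] [Algebra L K] [IsScalarTower ℂ L K]
    [FiniteDimensional L K] (Bd : Place ℂ L → Prop)
    (hBd : ∀ (P : Place ℂ L) (Q : Place ℂ K) (e : ℕ), Over Q P e → (Bd P ↔ Boundary F B Q))
    (b : Fin n → ℕ) (Λ : Finset (Fin n))
    (h1 : ∀ (k : ℕ) (J : Finset (Fin n)), J.Nonempty → (∀ i ∈ J, b i = k) →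
      (2 ≤ J.card ∨ ∃ i, k < b i) →
      imageDegree L F (Finset.univ.filter fun i => b i ≤ k) ≤
        imageDegree L F (Finset.univ.filter fun i => b i ≤ k ∧ i ∉ J) *
          (∑ i ∈ J, (γ i - 2) + 1))
    (h2 : ∀ (k : ℕ) (J : Finset (Fin n)), (∃ l ∈ J, l ∈ Λ) → (∀ i ∈ J, b i = k) →
      2 * imageDegree L F (Finset.univ.filter fun i => b i ≤ k) ≤
        imageDegree L F (Finset.univ.filter fun i => b i ≤ k ∧ i ∉ J) *
          (∑ i ∈ J, (γ i - 2) + 1))
    (h3 : ∀ k : ℕ, (∃ l ∈ Λ, k < b l) → ∀ J : Finset (Fin n), J.Nonempty → (∀ i ∈ J, b i = k) →
      2 * imageDegree L F (Finset.univ.filter fun i => b i ≤ k) ≤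
        imageDegree L F (Finset.univ.filter fun i => b i ≤ k ∧ i ∉ J) *
          (∑ i ∈ J, (γ i - 2) + 2)) :
    (IsA1Uniruled ℂ L n Bd ∧ ¬ Psef ℂ L n Bd) ∨ KodGe ℂ L n Bd Λ.card :=
  Pool.Agent.Helper320.PCH.fin_prodB hn hK F (fun i => ⟨(hF i).1, (hF i).2⟩) B hsup γ hγ L Bd hBd b
    h1 Λ h2 h3

end Pool.Agent.Results.MP_2c56d9_ag.ImagesOfOpenCurveProducts
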